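import Pool.Agent.Lib.MP_b5021c_nt.E.H61.FacetDraft

/-!
# Board b5, row E0_FSP: the ports vanishing on a face are injective modulo the face
-/

namespace Pool.Agent.B5.H61

open Pool.Agent.B5

/-- A spanning set of full rank generates a subgroup of finite index. -/
theorem full_index {L : Type} [AddCommGroup L] [Module.Free ℤ L] [Module.Finite ℤ L]
    (N : Submodule ℤ L) (T : Set L) (hT : ∀ a ∈ T, a ∈ N) (hr : rk T = Module.finrank ℤ N)
    (x : L) (hx : x ∈ N) : ∃ n : ℤ, n ≠ 0 ∧ n • x ∈ Submodule.span ℤ T := by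
  have hle : Submodule.span ℤ T ≤ N := Submodule.span_le.mpr hT
  set M : Submodule ℤ N := (Submodule.span ℤ T).submoduleOf N with hM
  have h1 : Module.finrank ℤ M = Module.finrank ℤ N := by
    rw [← hr]
    exact LinearEquiv.finrank_eq (Submodule.submoduleOfEquivOfLe hle)
  have hfin : Finite (N ⧸ M) := M.finiteQuotientOfFreeOfRankEq h1
  have hc : Nat.card (N ⧸ M) ≠ 0 := Nat.card_pos.ne'
  refine ⟨(Nat.card (N ⧸ M) : ℤ), by exact_mod_cast hc, ?_⟩
  have h2 : (Nat.card (N ⧸ M)) • (Submodule.Quotient.mk (⟨x, hx⟩ : N) : N ⧸ M) = 0 :=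
    card_nsmul_eq_zero'
  have h3 : (Submodule.Quotient.mk ((Nat.card (N ⧸ M)) • (⟨x, hx⟩ : N)) : N ⧸ M) = 0 := by
    rw [← h2]
    rfl
  rw [Submodule.Quotient.mk_eq_zero] at h3
  have h4 := Submodule.mem_comap.mp h3
  rw [natCast_zsmul]
  exact h4

theorem span_map_mem {L M : Type} [AddCommGroup L] [AddCommGroup M] (f : L →+ M) (T : Set L)
    {y : M} (hy : y ∈ Submodule.span ℤ (f '' T)) : ∃ x ∈ Submodule.span ℤ T, f x = y := by
  have h := Submodule.map_span f.toIntLinearMap T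
  have h2 : y ∈ Submodule.map f.toIntLinearMap (Submodule.span ℤ T) := by
    rw [h]
    exact hy
  obtain ⟨x, hx, hxy⟩ := Submodule.mem_map.mp h2
  exact ⟨x, hx, hxy⟩

theorem fsp (hD3 : D3S) (hRk : RkS) : FspS := by
  intro O _ _ _ _ P L _ _ _ _ _ phi D hF K lam hsat hlam hpos hrk b hb
  classical
  -- the quotient lattice
  have htf : ∀ (n : ℤ) (q : L ⧸ K), n ≠ 0 → n • q = 0 → q = 0 := by
    intro n q hn hq
    obtain ⟨a, rfl⟩ := Submodule.Quotient.mk_surjective K q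
    have h1 : (Submodule.Quotient.mk (n • a) : L ⧸ K) = 0 := hq
    rw [Submodule.Quotient.mk_eq_zero] at h1
    rw [Submodule.Quotient.mk_eq_zero]
    exact hsat n a hn h1
  have : Module.Finite ℤ (L ⧸ K) := inferInstance
  have : Module.IsTorsionFree ℤ (L ⧸ K) := by
    refine Module.isTorsionFree_iff_smul_eq_zero.mpr ?_
    intro n q hnq
    by_cases hn : n = 0
    · exact Or.inl hn
    · exact Or.inr (htf n q hn hnq)
  have : Module.Free ℤ (L ⧸ K) := inferInstance
  set f : L →+ (L ⧸ K) := K.mkQ.toAddMonoidHom with hf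
  have hf0 : ∀ a, f a = 0 ↔ a ∈ K := fun a => Submodule.Quotient.mk_eq_zero K
  have hfs : Function.Surjective f := Submodule.mkQ_surjective K
  set A : Finset (L ⧸ K) := (D.coeff.support.filter (fun a => a ∉ K)).image f with hA
  have memA : ∀ q, q ∈ A ↔ ∃ a, a ∈ supp D ∧ a ∉ K ∧ f a = q := by
    intro q
    simp only [hA, Finset.mem_image, Finset.mem_filter, Finsupp.mem_support_iff, supp,
      Set.mem_ofPred_eq, and_assoc]
  -- the positive functional
  have hle : K ≤ LinearMap.ker lam.toIntLinearMap := fun a ha => hlam a ha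
  have hposQ : ∃ lam' : (L ⧸ K) →+ ℤ, ∀ q ∈ A, 0 < lam' q := by
    refine ⟨(K.liftQ lam.toIntLinearMap hle).toAddMonoidHom, ?_⟩
    intro q hq
    obtain ⟨a, ha, haK, rfl⟩ := (memA q).mp hq
    exact hpos a ha haK
  obtain ⟨k1, kmono, kle, kinj, kimg, kun, ksing, kins, kspan, kprod⟩ := hRk L L
  obtain ⟨q1, qmono, qle, qinj, qimg, qun, qsing, qins, qspan, qprod⟩ := hRk (L ⧸ K) (L ⧸ K)
  -- supp D spans up to torsion
  have hDtop : ∀ x : L, ∃ n : ℤ, n ≠ 0 ∧ n • x ∈ Submodule.span ℤ (supp D) := by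
    intro x
    refine full_index ⊤ (supp D) (fun _ _ => Submodule.mem_top) ?_ x Submodule.mem_top
    rw [hF.dd.spn, finrank_top]
  have hAfull : rk (A : Set (L ⧸ K)) = Module.finrank ℤ (L ⧸ K) := by
    refine le_antisymm (qle _) ?_
    have h1 : rk (Set.univ : Set (L ⧸ K)) = Module.finrank ℤ (L ⧸ K) := by
      unfold rk
      rw [Submodule.span_univ, finrank_top]
    rw [← h1]
    refine qspan _ _ ?_
    intro q _
    obtain ⟨x, rfl⟩ := hfs q
    obtain ⟨n, hn, hnx⟩ := hDtop x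
    refine ⟨n, hn, ?_⟩
    have h2 : f (n • x) ∈ Submodule.map f.toIntLinearMap (Submodule.span ℤ (supp D)) :=
      Submodule.mem_map.mpr ⟨_, hnx, rfl⟩
    rw [Submodule.map_span] at h2
    rw [map_zsmul] at h2
    refine (Submodule.span_le.mpr ?_) h2
    rintro _ ⟨a, ha, rfl⟩
    by_cases haK : a ∈ K
    · have : f.toIntLinearMap a = 0 := (hf0 a).mpr haK
      rw [this]
      exact Submodule.zero_mem _
    · exact Submodule.subset_span ((memA _).mpr ⟨a, ha, haK, rfl⟩)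
  have hfb : f b ≠ 0 := fun h => hb ((hf0 b).mp h)
  obtain ⟨lam', hl0, hle0, hlr⟩ := hD3 (L ⧸ K) A (f b) hposQ hAfull hfb
  set mu : L →+ ℤ := lam'.comp f with hmu
  have hmub : mu b ≠ 0 := hle0
  have hmu0 : mu ≠ 0 := by
    intro h
    exact hmub (by rw [h]; rfl)
  have hmuK : ∀ a ∈ K, mu a = 0 := by
    intro a ha
    change lam' (f a) = 0
    rw [(hf0 a).mpr ha, map_zero]
  have hNn : Nn mu D := by
    intro a ha
    by_cases haK : a ∈ K
    · exact (hmuK a haK).ge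
    · exact hl0 _ ((memA _).mpr ⟨a, Finsupp.mem_support_iff.mp ha, haK, rfl⟩)
  set T : Set L := {a | a ∈ supp D ∧ mu a = 0} with hT
  have hspanT : ∀ x ∈ Ker mu, ∃ n : ℤ, n ≠ 0 ∧ n • x ∈ Submodule.span ℤ T := by
    intro x hx
    have hx0 : lam' (f x) = 0 := hx
    have hlam'0 : lam' ≠ 0 := by
      intro h
      exact hle0 (by rw [h]; rfl)
    obtain ⟨n1, hn1, hn1x⟩ := full_index (Ker lam') {q | q ∈ A ∧ lam' q = 0}
      (fun q hq => hq.2) (by have := q1 lam' hlam'0; omega) (f x) hx0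
    have hsub : Submodule.span ℤ {q | q ∈ A ∧ lam' q = 0} ≤ Submodule.span ℤ (f '' T) := by
      refine Submodule.span_mono ?_
      rintro q ⟨hq, hq0⟩
      obtain ⟨a, ha, haK, rfl⟩ := (memA q).mp hq
      exact ⟨a, ⟨ha, hq0⟩, rfl⟩
    obtain ⟨y, hy, hyx⟩ := span_map_mem f T (hsub hn1x)
    have hK : n1 • x - y ∈ K := by
      rw [← hf0, map_sub, map_zsmul, hyx, sub_self]
    obtain ⟨n2, hn2, hn2x⟩ := full_index K {a | a ∈ supp D ∧ a ∈ K} (fun a ha => ha.2) hrk
      (n1 • x - y) hK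
    refine ⟨n2 * n1, mul_ne_zero hn2 hn1, ?_⟩
    have h3 : (n2 * n1) • x = n2 • (n1 • x - y) + n2 • y := by
      rw [smul_sub, mul_smul]
      abel
    rw [h3]
    refine Submodule.add_mem _ ?_ (Submodule.smul_mem _ _ hy)
    refine (Submodule.span_mono ?_) hn2x
    rintro a ⟨ha, haK⟩
    exact ⟨ha, hmuK a haK⟩
  have hrT : rk T + 1 = Module.finrank ℤ L := by
    have h1 := k1 mu hmu0
    have h2 : rk ((Ker mu : Submodule ℤ L) : Set L) = Module.finrank ℤ (Ker mu) := by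
      unfold rk
      rw [Submodule.span_eq]
    have h3 : rk ((Ker mu : Submodule ℤ L) : Set L) ≤ rk T := kspan _ _ hspanT
    have h4 : rk T ≤ rk ((Ker mu : Submodule ℤ L) : Set L) := kmono _ _ (fun a ha => ha.2)
    omega
  obtain ⟨i, hi⟩ := hF.all mu hNn hmu0 hrT
  exact ⟨i, fun a ha => (hi a).mp (hmuK a ha), fun h => hmub ((hi b).mpr h)⟩

end Pool.Agent.B5.H61
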