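import Pool.Agent.Lib.MP_b5021c_nt.E.H61.FacetDraft

/-!
# Board b5, rows E0_INJ1, E0_TWF, E0_INJ2
-/

namespace Pool.Agent.B5.H61

open Pool.Agent.B5

section Basic

variable {O : Type} [CommRing O] {P : Type} [Fintype P] {L : Type} [AddCommGroup L]

/-- A binary non-zero element has a port. -/
theorem exists_port {phi : L →+ (P → ℤ)} (hinj : Function.Injective phi) {S : L}
    (hb : Bin phi S) (h0 : S ≠ 0) : ∃ i, phi S i = 1 := by
  by_contra h
  push Not at h
  refine h0 (hinj ?_)
  rw [map_zero]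
  funext i
  rcases hb i with h1 | h1
  · exact h1
  · exact absurd h1 (h i)

theorem smul_cancel [Module.Free ℤ L] [Module.Finite ℤ L] {n : ℤ} (hn : n ≠ 0) {a : L}
    (h : n • a = 0) : a = 0 := (smul_eq_zero.mp h).resolve_left hn

end Basic

/-- (INJ1) -/
theorem inj1 (hF : FspS) : Inj1S := by
  intro O _ _ _ _ P L _ _ _ _ _ phi D hD S hS
  classical
  obtain ⟨hSm, hS0, lam, hlS, hl⟩ := hS
  have hbin := hD.dd.bin S hSm
  obtain ⟨i0, hi0⟩ := exists_port hD.dd.inj hbin hS0
  set K : Submodule ℤ L := Submodule.span ℤ {S} with hK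
  have hsat : Sat K := by
    intro n a hn ha
    obtain ⟨k, hk⟩ := Submodule.mem_span_singleton.mp ha
    have h1 : k = n * phi a i0 := by
      have := congrArg (fun x => phi x i0) hk
      simp only [map_zsmul, Pi.smul_apply, smul_eq_mul, hi0, mul_one] at this
      exact this
    have h2 : n • (a - phi a i0 • S) = 0 := by
      rw [smul_sub, smul_smul, ← h1, hk, sub_self]
    have h3 := sub_eq_zero.mp (smul_cancel hn h2)
    rw [h3]
    exact Submodule.smul_mem _ _ (Submodule.mem_span_singleton_self S)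
  have hrk : rk {a | a ∈ supp D ∧ a ∈ K} = Module.finrank ℤ K := by
    have h1 : Submodule.span ℤ {a | a ∈ supp D ∧ a ∈ K} = K := by
      refine le_antisymm (Submodule.span_le.mpr fun a ha => ha.2) ?_
      rw [hK]
      refine Submodule.span_le.mpr ?_
      intro a ha
      rw [Set.mem_singleton_iff.mp ha]
      exact Submodule.subset_span ⟨hSm, Submodule.mem_span_singleton_self S⟩
    unfold rk
    rw [h1]
  have key : ∀ b : L, (∀ i, phi S i = 0 → phi b i = 0) → ∃ k : ℤ, b = k • S := by
    intro b hb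
    by_contra hcon
    have hbK : b ∉ K := by
      intro h
      obtain ⟨k, hk⟩ := Submodule.mem_span_singleton.mp h
      exact hcon ⟨k, hk.symm⟩
    obtain ⟨i, hi, hbi⟩ := hF O P L phi D hD K lam hsat
      (fun a ha => by
        obtain ⟨k, hk⟩ := Submodule.mem_span_singleton.mp ha
        rw [← hk, map_zsmul, hlS, smul_zero])
      (fun a ha haK => hl a ha (fun h => haK (by rw [h]; exact Submodule.zero_mem _))
        (fun h => haK (by rw [h]; exact Submodule.mem_span_singleton_self S)))
      hrk b hbK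
    exact hbi (hb i (hi S (Submodule.mem_span_singleton_self S)))
  refine ⟨key, ?_⟩
  intro j0 hj0 a b hab
  have hj0' : phi S j0 = 1 := hj0
  obtain ⟨k, hk⟩ := key ((a : L) - (b : L)) (by
    intro i hi
    have := congrFun hab i
    simp only [phO, AddMonoidHom.coe_mk, ZeroHom.coe_mk, hi, if_true] at this
    rw [map_sub, Pi.sub_apply, this, sub_self])
  have hk0 : k = 0 := by
    have h1 : phi (a : L) j0 = 0 := a.2
    have h2 : phi (b : L) j0 = 0 := b.2
    have := congrArg (fun x => phi x j0) hk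
    simp only [map_sub, Pi.sub_apply, h1, h2, map_zsmul, Pi.smul_apply, smul_eq_mul, hj0',
      mul_one, sub_zero] at this
    exact this.symm
  rw [hk0, zero_smul, sub_eq_zero] at hk
  exact Subtype.ext hk

/-- One half of TWF: exponents in `S0 ∪ S1` outside the plane are in `US`. -/
theorem twf_aux (hF1 : F1S) (h1 : Inj1S) (O : Type) [CommRing O] [IsDomain O]
    [IsPrincipalIdealRing O] [Coef O]
    (P L : Type) [Fintype P] [DecidableEq P] [AddCommGroup L] [Module.Free ℤ L]
    [Module.Finite ℤ L] (phi : L →+ (P → ℤ)) (D : AO O L) (S0 S1 : L) (e0 : (RO O)ˣ)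
    (hD : FP phi D) (hS0 : Ray D S0) (hS1 : Ray D S1) (a : L) (ha : a ∈ supp D)
    (hout : ∀ i, phi S0 i = 0 → phi S1 i = 0 → phi a i = 0)
    (hK : ¬ ∃ k l : ℤ, a = k • S0 + l • S1) : a ∈ US e0 S0 D := by
  by_contra hcon
  have hb0 := hD.dd.bin S0 hS0.1
  have hba := hD.dd.bin a ha
  have hF := hF1 O P L phi D S0 e0 hD.dd.inj hD.dd.bin hb0 hS0.2.1
  obtain ⟨hA, hB⟩ := hF a hcon
  by_cases hd : ∀ i, phi S0 i = 1 → phi a i = 0
  · -- disjoint from `S0`
    obtain ⟨k, hk⟩ := (h1 O P L phi D hD S1 hS1).1 a (by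
      intro i hi
      rcases hb0 i with h | h
      · exact hout i h hi
      · exact hd i h)
    exact hK ⟨0, k, by rw [hk, zero_smul, zero_add]⟩
  · push Not at hd
    obtain ⟨i, hi, hai⟩ := hd
    have hai1 : phi a i = 1 := (hba i).resolve_left hai
    by_cases hd2 : ∃ i, phi a i = 0 ∧ phi S0 i = 1
    · exact ha (hA ⟨i, hai1, hi⟩ hd2)
    · push Not at hd2
      -- `a` contains `S0`
      have hsub : ∀ j, phi S0 j = 1 → phi a j = 1 := by
        intro j hj
        rcases hba j with h | h
        · exact absurd hj (hd2 j h)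
        · exact h
      have hcon' : a - S0 ∉ US e0 S0 D := by
        intro h
        refine hcon ?_
        have hS : S0 ∈ US e0 S0 D := by
          refine ⟨1, one_ne_zero, ?_⟩
          rw [one_smul]
          exact Submodule.subset_span (Set.mem_insert _ _)
        have := Submodule.add_mem _ h hS
        rwa [sub_add_cancel] at this
      obtain ⟨_, hB'⟩ := hF (a - S0) hcon'
      have hB2 := hB' (by
        intro j
        rcases hb0 j with h | h
        · exact Or.inr h
        · left
          rw [map_sub, Pi.sub_apply, hsub j h, h, sub_self])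
      rw [sub_add_cancel] at hB2
      have ha' : a - S0 ∈ supp D := by
        intro h
        rw [h, zero_add] at hB2
        exact ha ((Units.mul_right_eq_zero e0).mp hB2)
      obtain ⟨k, hk⟩ := (h1 O P L phi D hD S1 hS1).1 (a - S0) (by
        intro j hj
        rw [map_sub, Pi.sub_apply]
        rcases hb0 j with h | h
        · rw [h, hout j h hj, sub_self]
        · rw [hsub j h, h, sub_self])
      exact hK ⟨1, k, by rw [one_smul, ← hk]; abel⟩

/-- (TWF) -/
theorem twf (hD2 : D2S) (hF1 : F1S) (hF2 : F2S) (h1 : Inj1S) : TwfS := by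
  intro O _ _ _ _ P L _ _ _ _ _ phi D S0 S1 e0 e1 hD hS0 hS1 hm0 hm1
  classical
  have hdis := hF2 O P L phi D S0 S1 e1 hD.dd.inj hD.dd.bin hS0 hS1 hm1
  refine ⟨hdis, ?_⟩
  have hb0 := hD.dd.bin S0 hS0.1
  have hb1 := hD.dd.bin S1 hS1.1
  obtain ⟨i0, hi0⟩ := exists_port hD.dd.inj hb0 hS0.2.1
  obtain ⟨i1, hi1⟩ := exists_port hD.dd.inj hb1 hS1.2.1
  have hi01 : phi S1 i0 = 0 := by
    rcases hdis i0 with h | h
    · rw [hi0] at h; omega
    · exact h
  have hi10 : phi S0 i1 = 0 := by
    rcases hdis i1 with h | h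
    · exact h
    · rw [hi1] at h; omega
  set K : Submodule ℤ L := Submodule.span ℤ {S0, S1} with hK
  have memK : ∀ a, a ∈ K ↔ ∃ k l : ℤ, a = k • S0 + l • S1 := by
    intro a
    rw [hK, Submodule.mem_span_pair]
    constructor
    · rintro ⟨k, l, h⟩
      exact ⟨k, l, h.symm⟩
    · rintro ⟨k, l, h⟩
      exact ⟨k, l, h.symm⟩
  have hinter : ∀ a ∈ supp D, a ∈ K → a = 0 ∨ a = S0 ∨ a = S1 ∨ a = S0 + S1 := by
    intro a ha haK
    obtain ⟨k, l, hkl⟩ := (memK a).mp haK
    have hba := hD.dd.bin a ha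
    have hk : phi a i0 = k := by
      rw [hkl, map_add, map_zsmul, map_zsmul, Pi.add_apply, Pi.smul_apply, Pi.smul_apply, hi0,
        hi01]
      simp
    have hl : phi a i1 = l := by
      rw [hkl, map_add, map_zsmul, map_zsmul, Pi.add_apply, Pi.smul_apply, Pi.smul_apply, hi10,
        hi1]
      simp
    rcases hba i0 with h2 | h2 <;> rcases hba i1 with h3 | h3
    · left
      rw [hkl, ← hk, ← hl, h2, h3]; simp
    · right; right; left
      rw [hkl, ← hk, ← hl, h2, h3]; simp
    · right; left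
      rw [hkl, ← hk, ← hl, h2, h3]; simp
    · right; right; right
      rw [hkl, ← hk, ← hl, h2, h3]; simp
  set A : Finset L := D.coeff.support.filter (fun a => a ∉ K) with hA
  have memA : ∀ a, a ∈ A ↔ a ∈ supp D ∧ a ∉ K := by
    intro a
    simp only [hA, Finset.mem_filter, Finsupp.mem_support_iff, supp, Set.mem_ofPred_eq]
  rcases hD2 L A K with ⟨lam, hlK, hlA⟩ | ⟨c, ⟨a0, ha0, hca0⟩, hc⟩
  · refine ⟨lam, hlK S0 ((memK _).mpr ⟨1, 0, by simp⟩), hlK S1 ((memK _).mpr ⟨0, 1, by simp⟩),
      ?_⟩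
    intro a ha h0 h1' h2 h3
    refine hlA a ((memA a).mpr ⟨ha, fun haK => ?_⟩)
    rcases hinter a ha haK with h | h | h | h
    · exact h0 h
    · exact h1' h
    · exact h2 h
    · exact h3 h
  · exfalso
    obtain ⟨al, be, hab⟩ := (memK _).mp hc
    -- exponents with `c a ≠ 0` lie in `S0 ∪ S1`
    have hout : ∀ a ∈ A, c a ≠ 0 → ∀ i, phi S0 i = 0 → phi S1 i = 0 → phi a i = 0 := by
      intro a ha hca i hi hi'
      have h2 : ∑ x ∈ A, (c x : ℤ) * phi x i = 0 := by
        have := congrArg (fun x => phi x i) hab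
        simp only [map_add, map_zsmul, Pi.add_apply, Pi.smul_apply, hi, hi', smul_zero, add_zero,
          map_sum, Finset.sum_apply, map_nsmul] at this
        rw [← this]
        refine Finset.sum_congr rfl fun x _ => ?_
        rw [nsmul_eq_mul]
      have h3 : ∀ x ∈ A, 0 ≤ (c x : ℤ) * phi x i := by
        intro x hx
        have := hD.dd.bin x ((memA x).mp hx).1 i
        rcases this with h | h <;> rw [h] <;> simp
      have h4 := (Finset.sum_eq_zero_iff_of_nonneg h3).mp h2 a ha
      rcases mul_eq_zero.mp h4 with h | h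
      · exact absurd (by exact_mod_cast h) hca
      · exact h
    have hin0 : ∀ a ∈ A, c a ≠ 0 → a ∈ US e0 S0 D := by
      intro a ha hca
      refine twf_aux hF1 h1 O P L phi D S0 S1 e0 hD hS0 hS1 a ((memA a).mp ha).1
        (hout a ha hca) (fun h => ((memA a).mp ha).2 ((memK a).mpr h))
    have hin1 : ∀ a ∈ A, c a ≠ 0 → a ∈ US e1 S1 D := by
      intro a ha hca
      refine twf_aux hF1 h1 O P L phi D S1 S0 e1 hD hS1 hS0 a ((memA a).mp ha).1
        (fun i h h' => hout a ha hca i h' h) ?_
      rintro ⟨k, l, h⟩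
      exact ((memA a).mp ha).2 ((memK a).mpr ⟨l, k, by rw [h, add_comm]⟩)
    have hsum0 : ∑ a ∈ A, c a • a ∈ US e0 S0 D := by
      refine Submodule.sum_mem _ fun a ha => ?_
      by_cases hca : c a = 0
      · rw [hca, zero_smul]; exact Submodule.zero_mem _
      · rw [← natCast_zsmul]
        exact Submodule.smul_mem _ _ (hin0 a ha hca)
    have hsum1 : ∑ a ∈ A, c a • a ∈ US e1 S1 D := by
      refine Submodule.sum_mem _ fun a ha => ?_
      by_cases hca : c a = 0
      · rw [hca, zero_smul]; exact Submodule.zero_mem _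
      · rw [← natCast_zsmul]
        exact Submodule.smul_mem _ _ (hin1 a ha hca)
    have satUS : ∀ (e : (RO O)ˣ) (S : L) (n : ℤ) (x : L), n ≠ 0 → n • x ∈ US e S D →
        x ∈ US e S D := by
      rintro e S n x hn ⟨m, hm, hmx⟩
      exact ⟨m * n, mul_ne_zero hm hn, by rw [mul_smul]; exact hmx⟩
    have selfUS : ∀ (e : (RO O)ˣ) (S : L), S ∈ US e S D := by
      intro e S
      refine ⟨1, one_ne_zero, ?_⟩
      rw [one_smul]
      exact Submodule.subset_span (Set.mem_insert _ _)
    have hbe : be = 0 := by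
      by_contra hbe
      refine hm0 (satUS e0 S0 be S1 hbe ?_)
      have := Submodule.sub_mem _ hsum0 (Submodule.smul_mem _ al (selfUS e0 S0))
      rw [hab] at this
      rwa [add_sub_cancel_left] at this
    have hal : al = 0 := by
      by_contra hal
      refine hm1 (satUS e1 S1 al S0 hal ?_)
      have := Submodule.sub_mem _ hsum1 (Submodule.smul_mem _ be (selfUS e1 S1))
      rw [hab] at this
      rwa [add_sub_cancel_right] at this
    rw [hal, hbe, zero_smul, zero_smul, add_zero] at hab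
    -- positivity
    have ha0' := (memA a0).mp ha0
    have ha0ne : a0 ≠ 0 := fun h => ha0'.2 (by rw [h]; exact Submodule.zero_mem _)
    obtain ⟨i, hi⟩ := exists_port hD.dd.inj (hD.dd.bin a0 ha0'.1) ha0ne
    have h2 : ∑ x ∈ A, (c x : ℤ) * phi x i = 0 := by
      have := congrArg (fun x => phi x i) hab
      simp only [map_sum, Finset.sum_apply, map_nsmul, Pi.smul_apply, map_zero,
        Pi.zero_apply] at this
      rw [← this]
      refine Finset.sum_congr rfl fun x _ => ?_
      rw [nsmul_eq_mul]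
    have h3 : ∀ x ∈ A, 0 ≤ (c x : ℤ) * phi x i := by
      intro x hx
      have := hD.dd.bin x ((memA x).mp hx).1 i
      rcases this with h | h <;> rw [h] <;> simp
    have h4 := (Finset.sum_eq_zero_iff_of_nonneg h3).mp h2 a0 ha0
    rw [hi, mul_one] at h4
    exact hca0 (by exact_mod_cast h4)

/-- (INJ2) -/
theorem inj2 (hF : FspS) (hT : TwfS) : Inj2S := by
  intro O _ _ _ _ P L _ _ _ _ _ phi D S0 S1 e0 e1 hD hS0 hS1 hm0 hm1 b hb
  classical
  obtain ⟨hdis, lam, hl0, hl1, hl⟩ := hT O P L phi D S0 S1 e0 e1 hD hS0 hS1 hm0 hm1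
  have hb0 := hD.dd.bin S0 hS0.1
  have hb1 := hD.dd.bin S1 hS1.1
  obtain ⟨i0, hi0⟩ := exists_port hD.dd.inj hb0 hS0.2.1
  obtain ⟨i1, hi1⟩ := exists_port hD.dd.inj hb1 hS1.2.1
  have hi01 : phi S1 i0 = 0 := by
    rcases hdis i0 with h | h
    · rw [hi0] at h; omega
    · exact h
  have hi10 : phi S0 i1 = 0 := by
    rcases hdis i1 with h | h
    · exact h
    · rw [hi1] at h; omega
  set K : Submodule ℤ L := Submodule.span ℤ {S0, S1} with hK
  have memK : ∀ a, a ∈ K ↔ ∃ k l : ℤ, a = k • S0 + l • S1 := by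
    intro a
    rw [hK, Submodule.mem_span_pair]
    constructor
    · rintro ⟨k, l, h⟩
      exact ⟨k, l, h.symm⟩
    · rintro ⟨k, l, h⟩
      exact ⟨k, l, h.symm⟩
  have hS0K : S0 ∈ K := (memK _).mpr ⟨1, 0, by simp⟩
  have hS1K : S1 ∈ K := (memK _).mpr ⟨0, 1, by simp⟩
  have hsat : Sat K := by
    intro n a hn ha
    obtain ⟨k, l, hkl⟩ := (memK _).mp ha
    have hk : n * phi a i0 = k := by
      have := congrArg (fun x => phi x i0) hkl
      simp only [map_add, map_zsmul, Pi.add_apply, Pi.smul_apply, hi0, hi01, smul_eq_mul,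
        mul_one, mul_zero, add_zero] at this
      exact this
    have hl' : n * phi a i1 = l := by
      have := congrArg (fun x => phi x i1) hkl
      simp only [map_add, map_zsmul, Pi.add_apply, Pi.smul_apply, hi1, hi10, smul_eq_mul,
        mul_one, mul_zero, zero_add] at this
      exact this
    have h2 : n • (a - (phi a i0 • S0 + phi a i1 • S1)) = 0 := by
      rw [smul_sub, smul_add, smul_smul, smul_smul, hk, hl', hkl, sub_self]
    exact (memK a).mpr ⟨_, _, sub_eq_zero.mp (smul_cancel hn h2)⟩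
  have hrk : rk {a | a ∈ supp D ∧ a ∈ K} = Module.finrank ℤ K := by
    have h1 : Submodule.span ℤ {a | a ∈ supp D ∧ a ∈ K} = K := by
      refine le_antisymm (Submodule.span_le.mpr fun a ha => ha.2) ?_
      refine Submodule.span_le.mpr ?_
      intro a ha
      rcases ha with h | h
      · rw [h]; exact Submodule.subset_span ⟨hS0.1, hS0K⟩
      · rw [Set.mem_singleton_iff.mp h]; exact Submodule.subset_span ⟨hS1.1, hS1K⟩
    unfold rk
    rw [h1]
  refine (memK b).mp ?_
  by_contra hbK
  obtain ⟨i, hi, hbi⟩ := hF O P L phi D hD K lam hsat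
    (fun a ha => by
      obtain ⟨k, l, hkl⟩ := (memK a).mp ha
      rw [hkl, map_add, map_zsmul, map_zsmul, hl0, hl1, smul_zero, smul_zero, add_zero])
    (fun a ha haK => hl a ha (fun h => haK (by rw [h]; exact Submodule.zero_mem _))
      (fun h => haK (by rw [h]; exact hS0K)) (fun h => haK (by rw [h]; exact hS1K))
      (fun h => haK (by rw [h]; exact Submodule.add_mem _ hS0K hS1K)))
    hrk b hbK
  exact hbi (hb i (hi S0 hS0K) (hi S1 hS1K))

/-- (CLP) -/
theorem clp (hG0 : G0S) (hR : ResWDS) (hRS : ResStS) (h1 : Inj1S) : ClpS := by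
  intro O _ _ _ _ P L _ _ _ _ _ phi D S i0 eta h c n G hD hfd
  classical
  have hinj := (h1 O P L phi D hD S hfd.cc.ray).2 i0 h
  have hww : ∀ a : Ker (co phi i0), WW (phK phi (co phi i0)) (II phi S i0) (OO phi S) a →
      Bin (phO phi S i0) a := by
    intro a ha j
    by_cases hj : phi S j = 0
    · have h2 := ha.1 j (by simp [OO, hj])
      simp only [phO, AddMonoidHom.coe_mk, ZeroHom.coe_mk, hj, if_true]
      exact h2
    · left
      simp [phO, hj]
  refine ⟨fun a ha => hww a ((hG0 O P L phi D S i0 eta h hfd.cc).2.2.2.1 a ha), ?_⟩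
  intro l
  have hnp : ¬ Pure phi S i0 (G l) := by
    intro hp
    have h0 : ∀ a ∈ supp (G l), a = 0 := by
      intro a ha
      refine hinj ?_
      rw [map_zero]
      funext j
      by_cases hj : phi S j = 0
      · have h2 := hp a ha j (by simp [OO, hj])
        simp only [phO, AddMonoidHom.coe_mk, ZeroHom.coe_mk, hj, if_true]
        exact h2
      · simp [phO, hj]
    obtain ⟨a, ha, b, hb, hab⟩ := hfd.wd l
    exact hab (by rw [h0 a ha, h0 b hb])
  refine ⟨hnp, ?_⟩
  obtain ⟨K, hK, hsub, hfr, hirr, hun, hrk⟩ := hR O (Ker (co phi i0)) (G l)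
    (hfd.irr l).ne_zero
  refine ⟨K, hK, hsub, hfr, ?_⟩
  refine ⟨?_, ?_, ?_, hun (hfd.un l), hirr (hfd.irr l), by rw [hrk, hfr]⟩
  · exact hinj.comp (fun _ _ hh => Subtype.ext hh)
  · intro a ha
    exact hww (a : Ker (co phi i0)) (hfd.ww l (a : Ker (co phi i0)) ha)
  · exact (hRS O (Ker (co phi i0)) (G l) K hK hsub).mp (hfd.st l)

end Pool.Agent.B5.H61
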