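import Pool.Agent.Lib.MP_b5021c_nt.IfaceE0

/-!
# Board b5, row E0_NP2
-/

namespace Pool.Agent.B5.H61

open Pool.Agent.B5

/-- (NP2) -/
theorem np2 (hI : Inj2S) : NoPure2S := by
  intro O _ _ _ _ P L _ _ _ _ _ phi D S0 S1 e0 e1 i0 h0 hFP hR0 hR1 hm1 hm0 T i1 h1 eta E c n G
    hT hFD i hP
  have hS1i0 : phi S1 i0 = 0 := by
    have := T.2
    rw [mem_Ker, hT] at this
    exact this
  have hS0i0 : phi S0 i0 = 1 := h0
  have h1' : (if phi S0 i1 = 0 then phi (T : L) i1 else 0) = 1 := h1
  have hS0i1 : phi S0 i1 = 0 := by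
    by_contra h
    rw [if_neg h] at h1'
    exact zero_ne_one h1'
  have hS1i1 : phi S1 i1 = 1 := by
    rw [if_pos hS0i1, hT] at h1'
    exact h1'
  have key : ∀ a ∈ supp (G i), a = 0 := by
    intro a ha
    have hb0 : phi ((a : Ker (co phi i0)) : L) i0 = 0 := (a : Ker (co phi i0)).2
    have hb1 : phi ((a : Ker (co phi i0)) : L) i1 = 0 := by
      have h2 : (if phi S0 i1 = 0 then phi ((a : Ker (co phi i0)) : L) i1 else 0) = 0 := a.2
      rw [if_pos hS0i1] at h2
      exact h2
    obtain ⟨k, l, hkl⟩ := hI O P L phi D S0 S1 e0 e1 hFP hR0 hR1 hm1 hm0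
      ((a : Ker (co phi i0)) : L) (by
        intro j hj0 hj1
        have hjO : j ∈ OO (phO phi S0 i0) T := by
          have h3 : phO phi S0 i0 T j = 0 := by
            change (if phi S0 j = 0 then phi (T : L) j else 0) = 0
            rw [if_pos hj0, hT, hj1]
          simpa [OO] using h3
        have h4 := hP a ha j hjO
        change (if phi S0 j = 0 then phi ((a : Ker (co phi i0)) : L) j else 0) = 0 at h4
        rw [if_pos hj0] at h4
        exact h4)
    have hk : k = 0 := by
      have h5 := congrArg (fun x => phi x i0) hkl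
      simp only [map_add, map_zsmul, Pi.add_apply, Pi.smul_apply, smul_eq_mul, hb0, hS0i0,
        hS1i0] at h5
      linarith
    have hl : l = 0 := by
      have h5 := congrArg (fun x => phi x i1) hkl
      simp only [map_add, map_zsmul, Pi.add_apply, Pi.smul_apply, smul_eq_mul, hb1, hS0i1,
        hS1i1] at h5
      linarith
    have h6 : ((a : Ker (co phi i0)) : L) = 0 := by
      rw [hkl, hk, hl, zero_smul, zero_smul, add_zero]
    exact Subtype.ext (Subtype.ext h6)
  obtain ⟨a, ha, b, hb, hab⟩ := hFD.wd i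
  exact hab ((key a ha).trans (key b hb).symm)

end Pool.Agent.B5.H61
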