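import Pool.Agent.Lib.MP_b5021c_nt.IfaceE4
import Pool.Agent.Lib.MP_b5021c_nt.IfaceE5

/-!
# Board b5, ALL THETA (PaperALL.md), row CUSP: the closed coefficient of a mutual pair has no zero
on the circle
-/

namespace Pool.Agent.B5.H61

open Pool.Agent.B5 Polynomial
open Pool.Agent.MP_b5021c_nt (nz)

/-- (CUSP) `S0`, `S1` mutual rays at the loads `e0`, `e1`; `D_0 = T^m q`, `e0 D_S0 = T^m a`,
`q` with exactly one zero in the open disc and none on the circle; if `q + a` has a zero in the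
open disc, then it has none on the circle. -/
def CuspS : Prop := ∀ (O : Type) [CommRing O] [IsDomain O] [IsPrincipalIdealRing O] [Coef O]
  (P L : Type) [Fintype P] [DecidableEq P] [AddCommGroup L] [Module.Free ℤ L]
  [Module.Finite ℤ L] (phi : L →+ (P → ℤ)) (D : AO O L) (S0 S1 : L) (e0 e1 : (RO O)ˣ)
  (m : ℤ) (q a : O[X]),
    DD phi D → 2 ≤ Module.finrank ℤ L → Mut D S0 S1 e0 e1 →
    D.coeff 0 = LaurentPolynomial.T m * toLaurent q →
    (e0 : RO O) * D.coeff S0 = LaurentPolynomial.T m * toLaurent a →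
    nz (q.map (Coef.emb : O →+* ℂ)) = 1 →
    (∀ z : ℂ, ‖z‖ = 1 → (q.map (Coef.emb : O →+* ℂ)).eval z ≠ 0) →
    q + a ≠ 0 →
    (∃ b : ℂ, ‖b‖ < 1 ∧ ((q + a).map (Coef.emb : O →+* ℂ)).eval b = 0) →
      ∀ z : ℂ, ‖z‖ = 1 → ((q + a).map (Coef.emb : O →+* ℂ)).eval z ≠ 0

section

variable {O : Type} [CommRing O] [Coef O]

theorem evR_Tp (z : Circle) (n : ℤ) (p : O[X]) :
    evR z (LaurentPolynomial.T n * toLaurent p : RO O) =
      (z : ℂ) ^ n * (p.map (Coef.emb : O →+* ℂ)).eval (z : ℂ) := by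
  rw [map_mul]
  congr 1
  · rw [evR, LaurentPolynomial.eval₂_T]
    simp
  · rw [evR, LaurentPolynomial.eval₂_toLaurent, Polynomial.eval_map]
    rfl

theorem norm_evR_Tp (z : Circle) (n : ℤ) (p : O[X]) :
    ‖evR z (LaurentPolynomial.T n * toLaurent p : RO O)‖ =
      ‖(p.map (Coef.emb : O →+* ℂ)).eval (z : ℂ)‖ := by
  rw [evR_Tp, norm_mul, norm_zpow, Circle.norm_coe, one_zpow, one_mul]

end

theorem cusp (hMfc : MfcS) (hCa : Ca5S) (hCu : Cu5S) : CuspS := by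
  intro O _ _ _ _ P L _ _ _ _ _ phi D S0 S1 e0 e1 m q a hD hr hM h0 hS hq1 hq2 hqa hb
  have hinj : Function.Injective (Coef.emb : O →+* ℂ) := Pool.Agent.B5.emb_inj
  have key : ∀ z : ℂ, ‖z‖ = 1 → 2 * ‖(a.map (Coef.emb : O →+* ℂ)).eval z‖ *
      ‖(q.map (Coef.emb : O →+* ℂ) + a.map (Coef.emb : O →+* ℂ)).eval z‖ ≤
      ‖(q.map (Coef.emb : O →+* ℂ)).eval z‖ ^ 2 - ‖(a.map (Coef.emb : O →+* ℂ)).eval z‖ ^ 2 := by
    intro z hz
    let zc : Circle := ⟨z, by simpa [Submonoid.unitSphere] using hz⟩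
    have h1 := hMfc O P L phi D S0 S1 e0 e1 hD hr hM zc
    have h2 := (hCa (evR zc (D.coeff 0)) (evR zc ((e0 : RO O) * D.coeff S0)) (by
      intro x y hx hy h3
      apply h1 x y hx hy
      linear_combination h3)).1
    rw [h0, hS, norm_evR_Tp, norm_evR_Tp, ← map_add, ← mul_add, ← map_add, norm_evR_Tp,
      Polynomial.map_add] at h2
    exact h2
  have h4 := hCu (q.map (Coef.emb : O →+* ℂ)) (a.map (Coef.emb : O →+* ℂ)) hq1 hq2 key
    (by
      rw [← Polynomial.map_add]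
      intro h5
      exact hqa ((Polynomial.map_eq_zero_iff hinj).1 h5))
    (by rw [← Polynomial.map_add]; exact hb)
  rw [← Polynomial.map_add] at h4
  exact h4

/-- The same for the evaluation on the circle. -/
theorem cusp_ev (h : CuspS) {O : Type} [CommRing O] [IsDomain O] [IsPrincipalIdealRing O] [Coef O]
    {P L : Type} [Fintype P] [DecidableEq P] [AddCommGroup L] [Module.Free ℤ L]
    [Module.Finite ℤ L] {phi : L →+ (P → ℤ)} {D : AO O L} {S0 S1 : L} {e0 e1 : (RO O)ˣ}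
    {m : ℤ} {q a : O[X]} (hD : DD phi D) (hr : 2 ≤ Module.finrank ℤ L) (hM : Mut D S0 S1 e0 e1)
    (h0 : D.coeff 0 = LaurentPolynomial.T m * toLaurent q)
    (hS : (e0 : RO O) * D.coeff S0 = LaurentPolynomial.T m * toLaurent a)
    (hq1 : nz (q.map (Coef.emb : O →+* ℂ)) = 1) (hq2 : ∀ z : Circle, evR z (D.coeff 0) ≠ 0)
    (hqa : q + a ≠ 0)
    (hb : ∃ b : ℂ, ‖b‖ < 1 ∧ ((q + a).map (Coef.emb : O →+* ℂ)).eval b = 0) (z : Circle) :
    evR z (D.coeff 0 + (e0 : RO O) * D.coeff S0) ≠ 0 := by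
  have h1 := h O P L phi D S0 S1 e0 e1 m q a hD hr hM h0 hS hq1 (by
    intro w hw h2
    obtain ⟨wc, rfl⟩ : ∃ wc : Circle, (wc : ℂ) = w :=
      ⟨⟨w, by simpa [Submonoid.unitSphere] using hw⟩, rfl⟩
    refine hq2 wc ?_
    rw [h0, evR_Tp, h2, mul_zero]) hqa hb (z : ℂ) (Circle.norm_coe z)
  rw [h0, hS, ← mul_add, ← map_add, evR_Tp]
  refine mul_ne_zero (zpow_ne_zero _ ?_) h1
  exact Circle.coe_ne_zero z

end Pool.Agent.B5.H61
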