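import Pool.Agent.Lib.MP_b5021c_nt.IfaceG
import Pool.Agent.Lib.MP_b5021c_nt.IfaceJ

/-!
# Board b5, chapter E0 (facet ports): statements (draft of helper61 for helper63)
-/

namespace Pool.Agent.B5

open scoped LaurentPolynomial

section

variable {O : Type} [CommRing O] [Coef O] {P : Type} [Fintype P] [DecidableEq P] {L : Type}
  [AddCommGroup L]

/-- FACET PORTS: every port functional is a facet of the cone of `D`, every facet is a port. -/
structure FP (phi : L →+ (P → ℤ)) (D : AO O L) : Prop where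
  dd : DD phi D
  fac : ∀ i, co phi i ≠ 0 ∧ rk {a | a ∈ supp D ∧ phi a i = 0} + 1 = Module.finrank ℤ L
  all : ∀ lam : L →+ ℤ, Nn lam D → lam ≠ 0 →
    rk {a | a ∈ supp D ∧ lam a = 0} + 1 = Module.finrank ℤ L →
      ∃ i, ∀ a : L, lam a = 0 ↔ phi a i = 0

/-- The marking of `Ker (co phi i0)` by the ports outside `S`. -/
def phO (phi : L →+ (P → ℤ)) (S : L) (i0 : P) : Ker (co phi i0) →+ (P → ℤ) where
  toFun a := fun j => if phi S j = 0 then phi (a : L) j else 0
  map_zero' := by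
    funext j
    simp
  map_add' a b := by
    funext j
    by_cases h : phi S j = 0 <;> simp [h]

end

/-- (FSP) FACES. `K` a face subspace (saturated, spanned by exponents, exposed by `lam`): the ports
which vanish on `K` are injective modulo `K`. [uses D3S RkS; D3S in the lattice `L ⧸ K`] -/
def FspS : Prop := ∀ (O : Type) [CommRing O] [IsDomain O] [IsPrincipalIdealRing O] [Coef O]
  (P L : Type) [Fintype P] [DecidableEq P] [AddCommGroup L] [Module.Free ℤ L]
  [Module.Finite ℤ L] (phi : L →+ (P → ℤ)) (D : AO O L), FP phi D →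
    ∀ (K : Submodule ℤ L) (lam : L →+ ℤ), Sat K → (∀ a ∈ K, lam a = 0) →
      (∀ a ∈ supp D, a ∉ K → 0 < lam a) →
      rk {a | a ∈ supp D ∧ a ∈ K} = Module.finrank ℤ K →
        ∀ b : L, b ∉ K → ∃ i, (∀ a ∈ K, phi a i = 0) ∧ phi b i ≠ 0

/-- (INJ1) the ports outside a ray are injective modulo the ray. [uses FspS] -/
def Inj1S : Prop := ∀ (O : Type) [CommRing O] [IsDomain O] [IsPrincipalIdealRing O] [Coef O]
  (P L : Type) [Fintype P] [DecidableEq P] [AddCommGroup L] [Module.Free ℤ L]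
  [Module.Finite ℤ L] (phi : L →+ (P → ℤ)) (D : AO O L), FP phi D → ∀ S, Ray D S →
    (∀ b : L, (∀ i, phi S i = 0 → phi b i = 0) → ∃ k : ℤ, b = k • S) ∧
    ∀ i0, co phi i0 S = 1 → Function.Injective (phO phi S i0)

/-- (TWF) mutual rays span a two-dimensional face with exactly four exponents.
[uses Inj1S D2S F1S F2S] -/
def TwfS : Prop := ∀ (O : Type) [CommRing O] [IsDomain O] [IsPrincipalIdealRing O] [Coef O]
  (P L : Type) [Fintype P] [DecidableEq P] [AddCommGroup L] [Module.Free ℤ L]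
  [Module.Finite ℤ L] (phi : L →+ (P → ℤ)) (D : AO O L) (S0 S1 : L) (e0 e1 : (RO O)ˣ),
    FP phi D → Ray D S0 → Ray D S1 → S1 ∉ US e0 S0 D → S0 ∉ US e1 S1 D →
      (∀ i, phi S0 i = 0 ∨ phi S1 i = 0) ∧
      ∃ lam : L →+ ℤ, lam S0 = 0 ∧ lam S1 = 0 ∧
        ∀ a ∈ supp D, a ≠ 0 → a ≠ S0 → a ≠ S1 → a ≠ S0 + S1 → 0 < lam a

/-- (INJ2) the ports outside two mutual rays are injective modulo the two rays. [uses FspS TwfS] -/
def Inj2S : Prop := ∀ (O : Type) [CommRing O] [IsDomain O] [IsPrincipalIdealRing O] [Coef O]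
  (P L : Type) [Fintype P] [DecidableEq P] [AddCommGroup L] [Module.Free ℤ L]
  [Module.Finite ℤ L] (phi : L →+ (P → ℤ)) (D : AO O L) (S0 S1 : L) (e0 e1 : (RO O)ˣ),
    FP phi D → Ray D S0 → Ray D S1 → S1 ∉ US e0 S0 D → S0 ∉ US e1 S1 D →
      ∀ b : L, (∀ i, phi S0 i = 0 → phi S1 i = 0 → phi b i = 0) →
        ∃ k l : ℤ, b = k • S0 + l • S1

/-- (CLP) closing with facet ports: the closed element is multi-affine in the ports outside `S`,
there are no pure factors, the factors are in `DD` for the ports outside `S`.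
[uses Inj1S ResWDS ResStS] -/
def ClpS : Prop := ∀ (O : Type) [CommRing O] [IsDomain O] [IsPrincipalIdealRing O] [Coef O]
  (P L : Type) [Fintype P] [DecidableEq P] [AddCommGroup L] [Module.Free ℤ L]
  [Module.Finite ℤ L] (phi : L →+ (P → ℤ)) (D : AO O L) (S : L) (i0 : P) (eta : (RO O)ˣ)
  (h : co phi i0 S = 1) (c : RO O) (n : ℕ) (G : Fin n → AO O (Ker (co phi i0))),
    FP phi D → FD phi D S i0 eta h c n G →
      (∀ a ∈ supp (cl (co phi i0) S h eta D), Bin (phO phi S i0) a) ∧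
      ∀ l, ¬ Pure phi S i0 (G l) ∧ ∃ K : Submodule ℤ (Ker (co phi i0)), Sat K ∧
        (∀ a ∈ supp (G l), a ∈ K) ∧ Module.finrank ℤ K = rk (supp (G l)) ∧
        DD ((phO phi S i0).comp (incl K)) (res K (G l))

end Pool.Agent.B5
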