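import Pool.Agent.Lib.MP_b5021c_nt.IfaceE2

/-!
# HAR: Harnack's inequality
-/

namespace Pool.Agent.B5.H61

open Pool.Agent.B5 Metric

theorem har_pos (C : ℂ → ℂ) (a : ℂ) (hC : DifferentiableOn ℂ C (ball 0 1))
    (hp : ∀ z : ℂ, ‖z‖ < 1 → 0 < (C z).re) (ha : ‖a‖ < 1) :
    (1 - ‖a‖) / (1 + ‖a‖) * (C 0).re ≤ (C a).re := by
  have hc0 : 0 < (C 0).re := hp 0 (by simp)
  have hden : ∀ z : ℂ, ‖z‖ < 1 → C z + (starRingEnd ℂ) (C 0) ≠ 0 := by
    intro z hz h
    have h1 := congrArg Complex.re h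
    simp only [Complex.add_re, Complex.conj_re, Complex.zero_re] at h1
    linarith [hp z hz]
  set k : ℂ → ℂ := fun z => (C z - C 0) / (C z + (starRingEnd ℂ) (C 0)) with hk
  have hkd : DifferentiableOn ℂ k (ball 0 1) := by
    apply DifferentiableOn.div (hC.sub_const _) (hC.add_const _)
    intro z hz
    exact hden z (by simpa using hz)
  have hsq : ∀ z : ℂ, ‖C z - C 0‖ ^ 2 = ((C z).re - (C 0).re) ^ 2 +
      ((C z).im - (C 0).im) ^ 2 ∧ ‖C z + (starRingEnd ℂ) (C 0)‖ ^ 2 =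
      ((C z).re + (C 0).re) ^ 2 + ((C z).im - (C 0).im) ^ 2 := by
    intro z
    constructor
    · rw [Complex.sq_norm, Complex.normSq_apply]
      simp only [Complex.sub_re, Complex.sub_im]
      ring
    · rw [Complex.sq_norm, Complex.normSq_apply]
      simp only [Complex.add_re, Complex.add_im, Complex.conj_re, Complex.conj_im]
      ring
  have hmaps : Set.MapsTo k (ball 0 1) (ball 0 1) := by
    intro z hz
    have hz' : ‖z‖ < 1 := by simpa using hz
    have h1 := hden z hz'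
    have h2 : 0 < ‖C z + (starRingEnd ℂ) (C 0)‖ := norm_pos_iff.mpr h1
    rw [mem_ball_zero_iff, hk, norm_div, div_lt_one h2]
    apply lt_of_pow_lt_pow_left₀ 2 h2.le
    rw [(hsq z).1, (hsq z).2]
    have := mul_pos (hp z hz') hc0
    nlinarith
  have hk0 : k 0 = 0 := by simp [hk]
  have hS := Complex.norm_le_norm_of_mapsTo_ball hkd (hmaps.mono_right ball_subset_closedBall) hk0 ha
  have h1 := hden a ha
  have h2 : 0 < ‖C a + (starRingEnd ℂ) (C 0)‖ := norm_pos_iff.mpr h1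
  rw [hk, norm_div, div_le_iff₀ h2] at hS
  have h3 : ‖C a - C 0‖ ^ 2 ≤ ‖a‖ ^ 2 * ‖C a + (starRingEnd ℂ) (C 0)‖ ^ 2 := by
    rw [← mul_pow]
    exact pow_le_pow_left₀ (norm_nonneg _) hS 2
  rw [(hsq a).1, (hsq a).2] at h3
  have ht0 := norm_nonneg a
  have hua := hp a ha
  have h4 : ((C 0).re - (C a).re) ^ 2 ≤ (‖a‖ * ((C a).re + (C 0).re)) ^ 2 := by
    have h5 : 0 ≤ (1 - ‖a‖ ^ 2) * ((C a).im - (C 0).im) ^ 2 :=
      mul_nonneg (by nlinarith) (sq_nonneg _)
    nlinarith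
  have h6 : (C 0).re - (C a).re ≤ ‖a‖ * ((C a).re + (C 0).re) :=
    le_of_sq_le_sq h4 (by positivity)
  rw [div_mul_eq_mul_div, div_le_iff₀ (by linarith)]
  nlinarith

/-- HAR -/
theorem har : HarS := by
  intro C a hC hp ha
  apply le_of_forall_pos_le_add
  intro ε hε
  have h := har_pos (fun z => C z + (ε : ℂ)) a (hC.add_const _) (fun z hz => by
    simp only [Complex.add_re, Complex.ofReal_re]
    linarith [hp z hz]) ha
  simp only [Complex.add_re, Complex.ofReal_re] at h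
  have h1 : 0 ≤ (1 - ‖a‖) / (1 + ‖a‖) * ε := by
    apply mul_nonneg (div_nonneg (by linarith) (by linarith [norm_nonneg a])) hε.le
  rw [mul_add] at h
  linarith

end Pool.Agent.B5.H61
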