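import Pool.Agent.Lib.MP_b5021c_nt.IfaceE2

/-!
# PSO: the Poisson inequality with the singular part
-/

namespace Pool.Agent.B5.H61

open Pool.Agent.B5 Metric Filter Topology
open Polynomial (X C)

theorem nat_mul_re (m : ℕ) (w : ℂ) : ((m : ℂ) * w).re = m * w.re := by simp

/-- Minimum principle for the real part. -/
theorem re_nonneg_ball {f : ℂ → ℂ} {R : ℝ} (hR : 1 < R) (hf : DifferentiableOn ℂ f (ball 0 R))
    (hc : ∀ z : ℂ, ‖z‖ = 1 → 0 ≤ (f z).re) {z : ℂ} (hz : ‖z‖ < 1) : 0 ≤ (f z).re := by
  have hsub : closure (ball (0 : ℂ) 1) ⊆ ball 0 R := by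
    rw [closure_ball _ one_ne_zero]
    exact closedBall_subset_ball hR
  have hd : DiffContOnCl ℂ (fun z => Complex.exp (-(f z))) (ball 0 1) := by
    apply DifferentiableOn.diffContOnCl
    exact ((hf.mono hsub).neg).cexp
  have h1 := Complex.norm_le_of_forall_mem_frontier_norm_le (C := 1) isBounded_ball hd
    (fun w hw => by
      rw [frontier_ball _ one_ne_zero, mem_sphere_zero_iff_norm] at hw
      rw [Complex.norm_exp, Complex.neg_re]
      exact Real.exp_le_one_iff.mpr (neg_nonpos.mpr (hc w hw)))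
    (subset_closure (by simpa using hz) : z ∈ closure (ball (0 : ℂ) 1))
  rw [Complex.norm_exp, Complex.neg_re, Real.exp_le_one_iff] at h1
  linarith

/-- Phragmen-Lindelöf: a quotient with real part bounded from below in the disc and nonnegative
on the circle (outside the poles) has nonnegative real part. -/
theorem re_nonneg_quot (e N : Polynomial ℂ) (M : ℝ) (he : ∀ z : ℂ, ‖z‖ < 1 → e.eval z ≠ 0)
    (hb : ∀ z : ℂ, ‖z‖ < 1 → -M ≤ (N.eval z / e.eval z).re)
    (hc : ∀ z : ℂ, ‖z‖ = 1 → e.eval z ≠ 0 → 0 ≤ (N.eval z / e.eval z).re)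
    {z0 : ℂ} (hz0 : ‖z0‖ < 1) : 0 ≤ (N.eval z0 / e.eval z0).re := by
  classical
  have hM : -|M| ≤ -M := neg_le_neg (le_abs_self M)
  have he0 : e ≠ 0 := fun h => he 0 (by simp) (by simp [h])
  set S : Finset ℂ := e.roots.toFinset.filter (fun z => ‖z‖ = 1) with hS
  set Rf : ℂ → ℂ := fun z => ∏ s ∈ S, (z - s) with hRf
  have hRd : Differentiable ℂ Rf := by
    have : Rf = fun z => (∏ s ∈ S, (X - C s)).eval z := by
      funext z
      simp [hRf, Polynomial.eval_prod]
    rw [this]
    exact Polynomial.differentiable _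
  have hR2 : ∀ z : ℂ, ‖z‖ ≤ 1 → ‖Rf z‖ ≤ 2 ^ S.card := by
    intro z hz
    rw [hRf]
    simp only
    rw [Finset.prod_congr rfl (fun s _ => rfl), norm_prod]
    calc ∏ s ∈ S, ‖z - s‖ ≤ ∏ _s ∈ S, (2 : ℝ) := by
          apply Finset.prod_le_prod (fun s _ => norm_nonneg _)
          intro s hs
          have h1 : ‖s‖ = 1 := (Finset.mem_filter.mp hs).2
          calc ‖z - s‖ ≤ ‖z‖ + ‖s‖ := norm_sub_le _ _
            _ ≤ 2 := by linarith
      _ = 2 ^ S.card := by rw [Finset.prod_const]
  have hR0 : Rf z0 ≠ 0 := by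
    rw [hRf]
    simp only
    rw [Finset.prod_ne_zero_iff]
    intro s hs h
    have h1 : ‖s‖ = 1 := (Finset.mem_filter.mp hs).2
    rw [sub_eq_zero] at h
    rw [← h] at h1
    linarith
  have key : ∀ m : ℕ, Real.exp (-(m * (N.eval z0 / e.eval z0).re)) * ‖Rf z0‖ ≤ 2 ^ S.card := by
    intro m
    set g : ℂ → ℂ := fun z => if e.eval z = 0 then 0 else
      Complex.exp (-(m * (N.eval z / e.eval z))) * Rf z with hg
    have hgn : ∀ z : ℂ, ‖z‖ ≤ 1 → ‖g z‖ ≤ Real.exp (m * |M|) * ‖Rf z‖ := by
      intro z hz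
      rw [hg]
      simp only
      by_cases h0 : e.eval z = 0
      · rw [if_pos h0, norm_zero]
        positivity
      · rw [if_neg h0, norm_mul, Complex.norm_exp]
        apply mul_le_mul_of_nonneg_right _ (norm_nonneg _)
        apply Real.exp_le_exp.mpr
        rw [Complex.neg_re, nat_mul_re]
        have h1 : -|M| ≤ (N.eval z / e.eval z).re := by
          rcases lt_or_eq_of_le hz with h | h
          · exact hM.trans (hb z h)
          · exact (neg_nonpos.mpr (abs_nonneg M)).trans (hc z h h0)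
        have h2 : (0 : ℝ) ≤ m := Nat.cast_nonneg m
        nlinarith
    have hdiff : ∀ z : ℂ, e.eval z ≠ 0 → DifferentiableAt ℂ g z := by
      intro z hz
      have h1 : ∀ᶠ w in 𝓝 z, e.eval w ≠ 0 :=
        (e.continuous.continuousAt (x := z)).eventually_ne hz
      have h2 : DifferentiableAt ℂ
          (fun w => Complex.exp (-(m * (N.eval w / e.eval w))) * Rf w) z := by
        apply DifferentiableAt.mul _ (hRd z)
        apply DifferentiableAt.cexp
        apply DifferentiableAt.neg
        apply DifferentiableAt.const_mul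
        exact N.differentiable.differentiableAt.div e.differentiable.differentiableAt hz
      refine h2.congr_of_eventuallyEq ?_
      filter_upwards [h1] with w hw
      rw [hg]
      simp only
      rw [if_neg hw]
    have hDC : DiffContOnCl ℂ g (ball 0 1) := by
      refine ⟨fun z hz => (hdiff z (he z (by simpa using hz))).differentiableWithinAt, ?_⟩
      rw [closure_ball _ one_ne_zero]
      intro z hz
      have hz1 : ‖z‖ ≤ 1 := by simpa using hz
      by_cases h0 : e.eval z = 0
      · -- a zero on the circle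
        have hz2 : ‖z‖ = 1 := by
          rcases lt_or_eq_of_le hz1 with h | h
          · exact absurd h0 (he z h)
          · exact h
        have hzS : z ∈ S := by
          rw [hS, Finset.mem_filter, Multiset.mem_toFinset, Polynomial.mem_roots he0]
          exact ⟨h0, hz2⟩
        have hRz : Rf z = 0 := by
          rw [hRf]
          exact Finset.prod_eq_zero hzS (sub_self z)
        have hgz : g z = 0 := by
          rw [hg]
          simp only
          rw [if_pos h0]
        have hlim : Tendsto (fun w => Real.exp (m * |M|) * ‖Rf w‖) (𝓝[closedBall 0 1] z)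
            (𝓝 0) := by
          have h1 : ContinuousAt (fun w => Real.exp (m * |M|) * ‖Rf w‖) z :=
            (continuous_const.mul hRd.continuous.norm).continuousAt
          have h2 := h1.tendsto
          rw [hRz, norm_zero, mul_zero] at h2
          exact h2.mono_left nhdsWithin_le_nhds
        rw [ContinuousWithinAt, hgz]
        apply squeeze_zero_norm' _ hlim
        filter_upwards [self_mem_nhdsWithin] with w hw
        exact hgn w (by simpa using hw)
      · exact (hdiff z h0).continuousAt.continuousWithinAt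
    have h1 := Complex.norm_le_of_forall_mem_frontier_norm_le (C := 2 ^ S.card)
      isBounded_ball hDC
      (fun w hw => by
        rw [frontier_ball _ one_ne_zero, mem_sphere_zero_iff_norm] at hw
        rw [hg]
        simp only
        by_cases h0 : e.eval w = 0
        · rw [if_pos h0, norm_zero]
          positivity
        · rw [if_neg h0, norm_mul, Complex.norm_exp, Complex.neg_re, nat_mul_re]
          have h2 : Real.exp (-(m * (N.eval w / e.eval w).re)) ≤ 1 := by
            rw [Real.exp_le_one_iff]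
            have := mul_nonneg (Nat.cast_nonneg (α := ℝ) m) (hc w hw h0)
            linarith
          calc Real.exp (-(m * (N.eval w / e.eval w).re)) * ‖Rf w‖ ≤ 1 * ‖Rf w‖ :=
                mul_le_mul_of_nonneg_right h2 (norm_nonneg _)
            _ ≤ 2 ^ S.card := by rw [one_mul]; exact hR2 w hw.le)
      (subset_closure (by simpa using hz0) : z0 ∈ closure (ball (0 : ℂ) 1))
    rw [hg] at h1
    simp only at h1
    rw [if_neg (he z0 hz0), norm_mul, Complex.norm_exp, Complex.neg_re,
      nat_mul_re] at h1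
    exact h1
  by_contra hneg
  push Not at hneg
  set x := -(N.eval z0 / e.eval z0).re with hx
  have hx0 : 0 < x := by rw [hx]; linarith
  have hRpos : 0 < ‖Rf z0‖ := norm_pos_iff.mpr hR0
  -- exp (m x) is unbounded
  obtain ⟨m, hm⟩ := exists_nat_gt (2 ^ S.card / ‖Rf z0‖ / x)
  have h1 := key m
  have h2 : (m : ℝ) * x < Real.exp (-(m * (N.eval z0 / e.eval z0).re)) := by
    have h3 : -((m : ℝ) * (N.eval z0 / e.eval z0).re) = m * x := by rw [hx]; ring
    rw [h3]
    have := Real.add_one_le_exp ((m : ℝ) * x)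
    linarith
  rw [div_lt_iff₀ hx0, div_lt_iff₀ hRpos] at hm
  have h4 := mul_lt_mul_of_pos_right h2 hRpos
  linarith

/-- On the circle `(w - conj w)` has real part zero, in the form used below. -/
theorem re_circ (k z : ℂ) (hz : ‖z‖ = 1) : (-(k / z) + (starRingEnd ℂ) k * z).re = 0 := by
  have h1 : k / z = k * (starRingEnd ℂ) z := by
    rw [div_eq_mul_inv, Complex.inv_def, Complex.normSq_eq_norm_sq, hz]
    simp
  rw [h1]
  simp only [Complex.add_re, Complex.neg_re, Complex.mul_re, Complex.conj_re, Complex.conj_im]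
  ring

/-- The function `F` without its pole has nonnegative real part in the punctured disc. -/
theorem re_H (hPsc : PscS) {p e : Polynomial ℂ} {a : ℂ} (h : PHyp p e a 1) {z : ℂ}
    (hz : ‖z‖ < 1) (hz0 : z ≠ 0) (hza : z ≠ a) :
    0 ≤ (p.eval z / (z * e.eval z) - p.eval 0 / e.eval 0 / z +
      (starRingEnd ℂ) (p.eval 0 / e.eval 0) * z).re := by
  obtain ⟨Cf, hCd, hCre, hC0, hCF⟩ := hPsc p e a h
  set k : ℂ := p.eval 0 / e.eval 0 with hk
  set b : ℂ := (starRingEnd ℂ) a with hb
  set kb : ℂ := (starRingEnd ℂ) k with hkb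
  have ha0 := h.a0
  have hnn : a * b = ((‖a‖ ^ 2 : ℝ) : ℂ) := by
    rw [hb, Complex.mul_conj, Complex.normSq_eq_norm_sq]
  set A : ℝ := 1 - ‖a‖ ^ 2 with hA
  have hA0 : 0 < A := by
    rw [hA]
    have := h.a1
    have := norm_nonneg a
    nlinarith
  have hAc : (A : ℂ) = 1 - a * b := by rw [hnn, hA]; push_cast; ring
  have hAne : (A : ℂ) ≠ 0 := by exact_mod_cast hA0.ne'
  -- the approximations
  set Nr : ℝ → ℂ → ℂ := fun ρ w =>
    Cf (ρ * w) * ((w - a) * (1 - b * w)) - a + b * w ^ 2 - k * A + kb * A * w ^ 2 with hNr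
  have key : ∀ ρ : ℝ, 0 < ρ → ρ < 1 → 0 ≤ (Nr ρ z / z).re := by
    intro ρ hρ0 hρ1
    have hR : 1 < 1 / ρ := by rw [lt_div_iff₀ hρ0]; linarith
    have hmem : ∀ w : ℂ, w ∈ ball (0 : ℂ) (1 / ρ) → ‖(ρ : ℂ) * w‖ < 1 := by
      intro w hw
      rw [mem_ball_zero_iff, lt_div_iff₀ hρ0] at hw
      rw [norm_mul, Complex.norm_real, Real.norm_eq_abs, abs_of_pos hρ0]
      linarith
    have hCρ : DifferentiableOn ℂ (fun w => Cf (ρ * w)) (ball 0 (1 / ρ)) := by
      apply hCd.comp ((differentiable_id.const_mul (ρ : ℂ)).differentiableOn)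
      intro w hw
      simpa using hmem w hw
    have hNd : DifferentiableOn ℂ (Nr ρ) (ball 0 (1 / ρ)) := by
      rw [hNr]
      simp only
      refine ((((hCρ.mul ?_).sub_const _).add ?_).sub_const _).add ?_
      · exact (((differentiable_id.sub_const a).mul
          ((differentiable_const 1).sub (differentiable_id.const_mul b)))).differentiableOn
      · exact ((differentiable_id.pow 2).const_mul b).differentiableOn
      · exact ((differentiable_id.pow 2).const_mul (kb * A)).differentiableOn
    have hN0 : Nr ρ 0 = 0 := by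
      rw [hNr]
      simp only
      rw [mul_zero, hC0, hAc]
      field_simp
      ring
    have hdd : DifferentiableOn ℂ (dslope (Nr ρ) 0) (ball 0 (1 / ρ)) := by
      rw [Complex.differentiableOn_dslope (ball_mem_nhds _ (by linarith))]
      exact hNd
    have hds : ∀ w : ℂ, w ≠ 0 → dslope (Nr ρ) 0 w = Nr ρ w / w := by
      intro w hw
      rw [dslope_of_ne _ hw, slope_def_field, hN0]
      simp
    have h1 := re_nonneg_ball hR hdd (fun w hw => by
      have hw0 : w ≠ 0 := fun h => by rw [h, norm_zero] at hw; exact zero_ne_one hw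
      rw [hds w hw0]
      have hconj : w⁻¹ = (starRingEnd ℂ) w := by
        rw [Complex.inv_def, Complex.normSq_eq_norm_sq, hw]
        simp
      have e1 : Nr ρ w / w = Cf (ρ * w) * ((‖w - a‖ ^ 2 : ℝ) : ℂ) +
          (-(a / w) + b * w) + A * (-(k / w) + kb * w) := by
        have e2 : ((‖w - a‖ ^ 2 : ℝ) : ℂ) = (w - a) * (1 - b * w) / w := by
          rw [← Complex.normSq_eq_norm_sq, ← Complex.mul_conj, map_sub, ← hconj, ← hb]
          field_simp
        rw [e2, hNr]
        simp only
        field_simp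
        ring
      rw [e1, Complex.add_re, Complex.add_re, hb, re_circ a w hw, Complex.re_mul_ofReal,
        Complex.re_ofReal_mul, hkb, re_circ k w hw]
      have h2 : 0 ≤ (Cf (ρ * w)).re := by
        apply hCre
        rw [norm_mul, Complex.norm_real, Real.norm_eq_abs, abs_of_pos hρ0, hw]
        linarith
      have h3 : 0 ≤ ‖w - a‖ ^ 2 := by positivity
      have := mul_nonneg h2 h3
      linarith) hz
    rwa [hds z hz0] at h1
  -- the limit
  have hlim : Tendsto (fun ρ : ℝ => (Nr ρ z / z).re) (𝓝[<] 1) (𝓝 (Nr 1 z / z).re) := by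
    have hcont : ContinuousAt (fun ρ : ℝ => Cf (ρ * z)) 1 := by
      have h1 : ContinuousAt Cf (((1 : ℝ) : ℂ) * z) := by
        rw [Complex.ofReal_one, one_mul]
        exact (hCd.differentiableAt (isOpen_ball.mem_nhds (by simpa using hz))).continuousAt
      exact ContinuousAt.comp (f := fun ρ : ℝ => (ρ : ℂ) * z) h1
        ((Complex.continuous_ofReal.mul continuous_const).continuousAt)
    have h2 : ContinuousAt (fun ρ : ℝ => (Nr ρ z / z).re) 1 := by
      apply Complex.continuous_re.continuousAt.comp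
      rw [hNr]
      simp only
      apply ContinuousAt.div_const
      exact ((((hcont.mul continuousAt_const).sub continuousAt_const).add
        continuousAt_const).sub continuousAt_const).add continuousAt_const
    exact h2.tendsto.mono_left nhdsWithin_le_nhds
  have hge : 0 ≤ (Nr 1 z / z).re := by
    apply ge_of_tendsto hlim
    have h1 : ∀ᶠ ρ : ℝ in 𝓝[<] 1, 0 < ρ :=
      nhdsWithin_le_nhds (lt_mem_nhds one_pos)
    filter_upwards [h1, self_mem_nhdsWithin] with ρ h2 h3
    exact key ρ h2 h3
  -- identification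
  have hden1 : 1 - b * z ≠ 0 := by
    intro h0
    have h1 : ‖b * z‖ = 1 := by
      rw [sub_eq_zero] at h0
      rw [← h0, norm_one]
    rw [norm_mul, hb, Complex.norm_conj] at h1
    have := h.a1
    nlinarith [norm_nonneg a, norm_nonneg z]
  have hden2 : 1 - a / z ≠ 0 := by
    intro h0
    apply hza
    rw [sub_eq_zero, eq_div_iff hz0, one_mul] at h0
    exact h0
  have hCz := hCF z hz hz0 hza
  have hfin : Nr 1 z / z = A * (p.eval z / (z * e.eval z) - k / z + kb * z) := by
    have h3 : Cf z * ((1 - a / z) * (1 - b * z)) =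
        (1 - ‖a‖ ^ 2) * (p.eval z / (z * e.eval z)) + a / z - b * z := by
      rw [hCz, div_mul_cancel₀ _ (mul_ne_zero hden2 hden1)]
    have h4 : ((1 : ℂ) - (‖a‖ : ℂ) ^ 2) = A := by rw [hA]; push_cast; ring
    rw [h4] at h3
    have h5 : Nr 1 z / z = Cf z * ((1 - a / z) * (1 - b * z)) + (-(a / z) + b * z) +
        A * (-(k / z) + kb * z) := by
      rw [hNr]
      simp only
      rw [Complex.ofReal_one, one_mul]
      field_simp
      ring
    rw [h5, h3]
    ring
  rw [hfin, Complex.re_ofReal_mul] at hge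
  exact nonneg_of_mul_nonneg_right hge hA0

/-- The case `v = 1`. -/
theorem pso_one (hPsc : PscS) (hHar : HarS) (p e r : Polynomial ℂ) (a : ℂ) (h : PHyp p e a 1)
    (hr : ∀ z : ℂ, ‖z‖ = 1 → e.eval z ≠ 0 → (p.eval z / (z * e.eval z)).re = (r.eval z).re) :
    (r.eval 0).re ≤ ((p.coeff 1 * e.coeff 0 - p.coeff 0 * e.coeff 1) / e.coeff 0 ^ 2).re ∧
    1 + (r.eval a).re + (1 - ‖a‖) / (1 + ‖a‖) *
        (((p.coeff 1 * e.coeff 0 - p.coeff 0 * e.coeff 1) / e.coeff 0 ^ 2).re - (r.eval 0).re) ≤
      -(p.eval 0 / e.eval 0 * (1 / a - (starRingEnd ℂ) a)).re := by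
  set k : ℂ := p.eval 0 / e.eval 0 with hk
  have he0 : e.eval 0 ≠ 0 := h.e0 0 (by simp)
  have he0' : e.coeff 0 ≠ 0 := by rwa [Polynomial.coeff_zero_eq_eval_zero]
  set P : Polynomial ℂ := p - C k * e + C ((starRingEnd ℂ) k) * X ^ 2 * e with hP
  have hP0 : P.coeff 0 = 0 := by
    rw [Polynomial.coeff_zero_eq_eval_zero, hP]
    simp only [Polynomial.eval_add, Polynomial.eval_sub, Polynomial.eval_mul, Polynomial.eval_C,
      Polynomial.eval_pow, Polynomial.eval_X]
    rw [hk]
    field_simp
    ring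
  set N0 : Polynomial ℂ := P.divX with hN0
  have hdiv : P = X * N0 := by
    have := P.X_mul_divX_add
    rw [hP0, map_zero, add_zero] at this
    exact this.symm
  have hH : ∀ z : ℂ, z ≠ 0 → e.eval z ≠ 0 → N0.eval z / e.eval z =
      p.eval z / (z * e.eval z) - k / z + (starRingEnd ℂ) k * z := by
    intro z hz hez
    have h1 : z * N0.eval z = p.eval z - k * e.eval z +
        (starRingEnd ℂ) k * z ^ 2 * e.eval z := by
      have := congrArg (Polynomial.eval z) hdiv
      rw [Polynomial.eval_mul, Polynomial.eval_X] at this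
      rw [← this, hP]
      simp only [Polynomial.eval_add, Polynomial.eval_sub, Polynomial.eval_mul,
        Polynomial.eval_C, Polynomial.eval_pow, Polynomial.eval_X]
    have h2 : N0.eval z = (p.eval z - k * e.eval z +
        (starRingEnd ℂ) k * z ^ 2 * e.eval z) / z := by
      rw [← h1]
      field_simp
    rw [h2]
    field_simp
  have hHre : ∀ z : ℂ, ‖z‖ < 1 → 0 ≤ (N0.eval z / e.eval z).re := by
    intro z hz
    have hcont : ContinuousAt (fun w => (N0.eval w / e.eval w).re) z :=
      Complex.continuous_re.continuousAt.comp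
        ((N0.continuous.continuousAt).div e.continuous.continuousAt (h.e0 z hz))
    have hev : ∀ᶠ w in 𝓝[≠] z, 0 ≤ (N0.eval w / e.eval w).re := by
      have h1 : ∀ᶠ w in 𝓝[≠] z, ‖w‖ < 1 :=
        nhdsWithin_le_nhds ((continuous_norm.tendsto z).eventually (gt_mem_nhds hz))
      have h2 : ∀ c : ℂ, ∀ᶠ w in 𝓝[≠] z, w ≠ c := by
        intro c
        by_cases hc : c = z
        · rw [hc]
          exact self_mem_nhdsWithin
        · exact nhdsWithin_le_nhds (isOpen_ne.mem_nhds (Ne.symm hc))
      filter_upwards [h1, h2 0, h2 a] with w hw1 hw2 hw3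
      rw [hH w hw2 (h.e0 w hw1)]
      exact re_H hPsc h hw1 hw2 hw3
    exact ge_of_tendsto (hcont.tendsto.mono_left nhdsWithin_le_nhds) hev
  obtain ⟨M, hM⟩ := (isCompact_closedBall (0 : ℂ) 1).exists_bound_of_continuousOn
    r.continuous.continuousOn
  have hN : ∀ z : ℂ, e.eval z ≠ 0 → (N0 - r * e).eval z / e.eval z =
      N0.eval z / e.eval z - r.eval z := by
    intro z hz
    rw [Polynomial.eval_sub, Polynomial.eval_mul, sub_div, mul_div_cancel_right₀ _ hz]
  have hW : ∀ z : ℂ, ‖z‖ < 1 → 0 ≤ ((N0 - r * e).eval z / e.eval z).re := by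
    intro z hz
    apply re_nonneg_quot e (N0 - r * e) M h.e0 _ _ hz
    · intro w hw
      rw [hN w (h.e0 w hw), Complex.sub_re]
      have h1 := hM w (by simpa using hw.le)
      have h2 := (abs_le.mp (Complex.abs_re_le_norm (r.eval w))).2
      have h3 := hHre w hw
      linarith
    · intro w hw hew
      have hw0 : w ≠ 0 := fun h => by rw [h, norm_zero] at hw; exact zero_ne_one hw
      rw [hN w hew, Complex.sub_re, hH w hw0 hew]
      have h1 := re_circ k w hw
      have h2 : (p.eval w / (w * e.eval w) - k / w + (starRingEnd ℂ) k * w).re =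
          (p.eval w / (w * e.eval w)).re + (-(k / w) + (starRingEnd ℂ) k * w).re := by
        simp only [Complex.add_re, Complex.sub_re, Complex.neg_re]
        ring
      rw [h2, h1, hr w hw hew]
      simp
  have hN00 : N0.eval 0 / e.eval 0 =
      (p.coeff 1 * e.coeff 0 - p.coeff 0 * e.coeff 1) / e.coeff 0 ^ 2 := by
    have h1 : N0.eval 0 = p.coeff 1 - k * e.coeff 1 := by
      rw [← Polynomial.coeff_zero_eq_eval_zero, hN0, Polynomial.coeff_divX, hP]
      rw [Polynomial.coeff_add, Polynomial.coeff_sub, Polynomial.coeff_C_mul, mul_assoc,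
        Polynomial.coeff_C_mul, Polynomial.coeff_X_pow_mul']
      simp
    rw [h1, hk, ← Polynomial.coeff_zero_eq_eval_zero, ← Polynomial.coeff_zero_eq_eval_zero]
    field_simp
  have hz0 := hW 0 (by simp)
  rw [hN 0 he0, hN00, Complex.sub_re] at hz0
  refine ⟨by linarith, ?_⟩
  have hHk := hHar (fun z => (N0 - r * e).eval z / e.eval z) a
    (fun z hz => ((N0 - r * e).differentiable.differentiableAt.div
      e.differentiable.differentiableAt (h.e0 z (by simpa using hz))).differentiableWithinAt)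
    hW h.a1
  rw [hN 0 he0, hN00, hN a (h.e0 a h.a1), hH a h.a0 (h.e0 a h.a1)] at hHk
  have hroot : p.eval a / (a * e.eval a) = -1 := by
    have h1 : a ∈ (p + C ((1 : ℝ) : ℂ) * X * e).roots.filter (fun z => ‖z‖ < 1) := by
      rw [h.one]
      exact Multiset.mem_singleton_self a
    have h2 := (Polynomial.mem_roots'.mp (Multiset.mem_filter.mp h1).1).2
    rw [Polynomial.IsRoot, Polynomial.eval_add, Polynomial.eval_mul, Polynomial.eval_mul,
      Polynomial.eval_C, Polynomial.eval_X, Complex.ofReal_one, one_mul] at h2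
    rw [div_eq_iff (mul_ne_zero h.a0 (h.e0 a h.a1))]
    linear_combination h2
  rw [hroot] at hHk
  simp only [Complex.sub_re, Complex.add_re, Complex.neg_re, Complex.one_re] at hHk
  have h3 : ((starRingEnd ℂ) k * a).re = (k * (starRingEnd ℂ) a).re := by
    simp only [Complex.mul_re, Complex.conj_re, Complex.conj_im]
    ring
  have h4 : (k * (1 / a - (starRingEnd ℂ) a)).re = (k / a).re - (k * (starRingEnd ℂ) a).re := by
    rw [mul_sub, Complex.sub_re]
    congr 2
    rw [mul_one_div]
  rw [h4]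
  linarith

/-- PSO -/
theorem pso (hPsc : PscS) (hHar : HarS) : PsoS := by
  intro p e r a v h hr
  have hv := h.v0
  have hvc : (v : ℂ) ≠ 0 := by exact_mod_cast hv.ne'
  have hC : C (((v⁻¹ : ℝ) : ℂ)) * (p + C (v : ℂ) * X * e) =
      C (((v⁻¹ : ℝ) : ℂ)) * p + C ((1 : ℝ) : ℂ) * X * e := by
    have h1 : C (((v⁻¹ : ℝ) : ℂ)) * C (v : ℂ) = C ((1 : ℝ) : ℂ) := by
      rw [← Polynomial.C_mul]
      congr 1
      push_cast
      exact inv_mul_cancel₀ hvc
    rw [mul_add, ← h1]
    ring
  have hP : PHyp (C (((v⁻¹ : ℝ) : ℂ)) * p) e a 1 := by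
    refine ⟨one_pos, h.a0, h.a1, h.e0, fun z hz => ?_, fun z hz => ?_, ?_⟩
    · rw [Polynomial.eval_mul, Polynomial.eval_C, mul_assoc, Complex.re_ofReal_mul]
      exact mul_nonneg (inv_nonneg.mpr hv.le) (h.re z hz)
    · rw [← hC, Polynomial.eval_mul, Polynomial.eval_C]
      refine mul_ne_zero ?_ (h.nz z hz)
      exact_mod_cast inv_ne_zero hv.ne'
    · rw [← hC, Polynomial.roots_C_mul _ (by exact_mod_cast inv_ne_zero hv.ne')]
      exact h.one
  have h1 := pso_one hPsc hHar (C (((v⁻¹ : ℝ) : ℂ)) * p) e (C (((v⁻¹ : ℝ) : ℂ)) * r) a hP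
    (fun z hz hez => by
      rw [Polynomial.eval_mul, Polynomial.eval_mul, Polynomial.eval_C, mul_div_assoc,
        Complex.re_ofReal_mul, Complex.re_ofReal_mul, hr z hz hez])
  obtain ⟨h2, h3⟩ := h1
  have e1 : (C (((v⁻¹ : ℝ) : ℂ)) * p).coeff 1 * e.coeff 0 -
      (C (((v⁻¹ : ℝ) : ℂ)) * p).coeff 0 * e.coeff 1 =
      ((v⁻¹ : ℝ) : ℂ) * (p.coeff 1 * e.coeff 0 - p.coeff 0 * e.coeff 1) := by
    rw [Polynomial.coeff_C_mul, Polynomial.coeff_C_mul]
    ring
  rw [e1] at h2 h3
  simp only [Polynomial.eval_mul, Polynomial.eval_C, mul_div_assoc, mul_assoc,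
    Complex.re_ofReal_mul] at h2 h3
  set t := ((p.coeff 1 * e.coeff 0 - p.coeff 0 * e.coeff 1) / e.coeff 0 ^ 2).re with ht
  set k := (p.eval 0 / e.eval 0 * (1 / a - (starRingEnd ℂ) a)).re with hk
  set ha := (1 - ‖a‖) / (1 + ‖a‖) with hha
  constructor
  · exact le_of_mul_le_mul_left h2 (inv_pos.mpr hv)
  · have h4 := mul_le_mul_of_nonneg_left h3 hv.le
    have e2 : v * (1 + (v⁻¹ * (r.eval a).re + ha * (v⁻¹ * t - v⁻¹ * (r.eval 0).re))) =
        v + (r.eval a).re + ha * (t - (r.eval 0).re) := by
      field_simp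
      ring
    have e3 : v * -(v⁻¹ * k) = -k := by field_simp
    rw [e3] at h4
    refine le_trans (le_of_eq ?_) h4
    rw [← e2]
    ring

end Pool.Agent.B5.H61
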